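import Mathlib

/-!
A connected graph on 55 vertices whose largest induced tree has at most 10 vertices while the
average eccentricity plus a third of the largest neighbourhood independence number exceeds 10.
Vertices `0..40` form a clique (position 0), vertices `41..49` are the positions `1..9` of a path,
vertex `50` is joined to the positions `4` and `5` and carries the four leaves `51..54`.
-/

open Finset

namespace Pool.Agent.Results.MP_e3442a_co.TreeBoundFalse

variable {V : Type*}

/-- Eccentricity of a vertex: the largest distance from it to a vertex. -/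
noncomputable def ecc [Fintype V] (G : SimpleGraph V) (v : V) : ℕ :=
  univ.sup (fun u => G.dist v u)

/-- Average eccentricity. -/
noncomputable def avgEcc [Fintype V] (G : SimpleGraph V) : ℝ :=
  (∑ v, (ecc G v : ℝ)) / (Fintype.card V : ℝ)

/-- Largest independence number of the subgraph induced on an open neighbourhood. -/
noncomputable def maxLocalIndep [Fintype V] (G : SimpleGraph V) : ℕ :=
  univ.sup (fun v => (G.induce (G.neighborSet v)).indepNum)

/-- Largest number of vertices of an induced tree. -/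
noncomputable def treeNum (G : SimpleGraph V) : ℕ :=
  sSup {m | ∃ S : Finset V, S.card = m ∧ (G.induce (S : Set V)).IsTree}

theorem lip (G : SimpleGraph V) (f : V → ℕ) (hf : ∀ x y, G.Adj x y → f x ≤ f y + 1)
    {u v : V} (w : G.Walk u v) : f u ≤ f v + w.length := by
  induction w with
  | nil => simp
  | cons h w ih =>
    have := hf _ _ h
    rw [SimpleGraph.Walk.length_cons]
    omega

theorem lip_dist (G : SimpleGraph V) (hc : G.Connected) (f : V → ℕ)
    (hf : ∀ x y, G.Adj x y → f x ≤ f y + 1) (u v : V) : f u ≤ f v + G.dist u v := by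
  obtain ⟨w, hw⟩ := hc.exists_walk_length_eq_dist u v
  rw [← hw]
  exact lip G f hf w

theorem side (G : SimpleGraph V) (S : Set V) (hc : (G.induce S).Connected) (w : V) (hw : w ∉ S)
    (φ : V → Prop) (hφ : ∀ x y, G.Adj x y → x ≠ w → y ≠ w → φ x → φ y) :
    (∀ x ∈ S, φ x) ∨ (∀ x ∈ S, ¬ φ x) := by
  by_cases h : ∃ x ∈ S, φ x
  · left
    obtain ⟨x, hx, hφx⟩ := h
    intro y hy
    obtain ⟨p⟩ := hc.preconnected ⟨x, hx⟩ ⟨y, hy⟩
    have : ∀ (a b : S) (p : (G.induce S).Walk a b), φ a.1 → φ b.1 := by
      intro a b p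
      induction p with
      | nil => exact id
      | @cons a c b h p ih =>
        intro ha
        exact ih (hφ a.1 c.1 h (fun e => hw (e ▸ a.2)) (fun e => hw (e ▸ c.2)) ha)
    exact this _ _ p hφx
  · right
    intro x hx hφx
    exact h ⟨x, hx, hφx⟩

theorem notri (G : SimpleGraph V) (S : Set V) (hc : (G.induce S).IsAcyclic) {x y z : V}
    (hx : x ∈ S) (hy : y ∈ S) (hz : z ∈ S) (h1 : G.Adj x y) (h2 : G.Adj x z) (h3 : G.Adj y z) :
    False := by
  classical
  have hf := hc.cliqueFree (n := 3) le_rfl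
  apply hf {⟨x, hx⟩, ⟨y, hy⟩, ⟨z, hz⟩}
  rw [SimpleGraph.is3Clique_triple_iff]
  exact ⟨h1, h2, h3⟩

def pos (v : ℕ) : ℕ := v - 40

def rel (u v : ℕ) : Bool :=
  (decide (u ≤ 49) && decide (v ≤ 49) && decide (pos u ≤ pos v + 1) && decide (pos v ≤ pos u + 1))
    || (decide (u = 50) && (decide (v = 44) || decide (v = 45) || decide (51 ≤ v)))

def H : SimpleGraph (Fin 55) := SimpleGraph.fromRel (fun u v => rel u.1 v.1 = true)

instance : DecidableRel H.Adj := fun u v =>
  decidable_of_iff (u ≠ v ∧ (rel u.1 v.1 = true ∨ rel v.1 u.1 = true)) Iff.rfl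

def fA (v : Fin 55) : ℕ := if v.1 ≤ 49 then pos v.1 else if v.1 = 50 then 5 else 6

def fB (v : Fin 55) : ℕ := if v.1 ≤ 49 then 9 - pos v.1 else if v.1 = 50 then 5 else 6

def par (v : Fin 55) : Fin 55 :=
  if v.1 ≤ 41 then 0 else if v.1 ≤ 49 then v - 1 else if v.1 = 50 then 44 else 50

theorem hfA : ∀ x y, H.Adj x y → fA x ≤ fA y + 1 := by decide +kernel

theorem hfB : ∀ x y, H.Adj x y → fB x ≤ fB y + 1 := by decide +kernel

theorem hpar : ∀ v : Fin 55, v ≠ 0 → H.Adj v (par v) ∧ (par v).1 < v.1 := by decide +kernel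

theorem H_conn : H.Connected := by
  have : ∀ n, ∀ v : Fin 55, v.1 = n → H.Reachable v 0 := by
    intro n
    induction n using Nat.strong_induction_on with
    | _ n ih =>
      intro v hv
      by_cases h0 : v = 0
      · rw [h0]
      · obtain ⟨h1, h2⟩ := hpar v h0
        exact h1.reachable.trans (ih _ (hv ▸ h2) _ rfl)
  exact SimpleGraph.Connected.mk (fun u v => (this _ u rfl).trans (this _ v rfl).symm)

theorem ecc_ge (v : Fin 55) : max (fA v) (fB v) ≤ ecc H v := by
  have h1 := lip_dist H H_conn fA hfA v 0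
  have h2 := lip_dist H H_conn fB hfB v 49
  have e1 : fA 0 = 0 := by decide
  have e2 : fB 49 = 0 := by decide
  have h3 : H.dist v 0 ≤ ecc H v := le_sup (f := fun u => H.dist v u) (mem_univ _)
  have h4 : H.dist v 49 ≤ ecc H v := le_sup (f := fun u => H.dist v u) (mem_univ _)
  omega

theorem sum_ge : 459 ≤ ∑ v, ecc H v := by
  have : ∑ v : Fin 55, max (fA v) (fB v) = 459 := by decide +kernel
  rw [← this]
  exact sum_le_sum (fun v _ => ecc_ge v)

theorem L_ge : 5 ≤ maxLocalIndep H := by
  classical
  refine le_trans ?_ (le_sup (f := fun v => (H.induce (H.neighborSet v)).indepNum)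
    (mem_univ (50 : Fin 55)))
  let T : Finset (Fin 55) := {44, 51, 52, 53, 54}
  have hT : ∀ x ∈ T, H.Adj 50 x := by decide +kernel
  have hT2 : ∀ x ∈ T, ∀ y ∈ T, ¬ H.Adj x y := by decide +kernel
  have hcard : (T.subtype (fun x => x ∈ H.neighborSet 50)).card = 5 := by
    rw [card_subtype, filter_true_of_mem (p := fun x => x ∈ H.neighborSet 50)
      (fun x hx => hT x hx)]
    decide
  rw [← hcard]
  apply SimpleGraph.IsIndepSet.card_le_indepNum
  intro x hx y hy _ hxy
  exact hT2 x.1 (by simpa using hx) y.1 (by simpa using hy) hxy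

theorem tree_le (S : Finset (Fin 55)) (hS : (H.induce (S : Set (Fin 55))).IsTree) :
    S.card ≤ 10 := by
  classical
  have hcl : ∀ x y : Fin 55, x.1 ≤ 41 → y.1 ≤ 41 → x ≠ y → H.Adj x y := by decide +kernel
  have hK2 : (S.filter (fun x => x.1 ≤ 41)).card ≤ 2 := by
    by_contra h
    obtain ⟨x, hx, y, hy, z, hz, hxy, hxz, hyz⟩ := two_lt_card.1 (not_le.1 h)
    rw [mem_filter] at hx hy hz
    exact notri H _ hS.isAcyclic (mem_coe.2 hx.1) (mem_coe.2 hy.1) (mem_coe.2 hz.1)
      (hcl _ _ hx.2 hy.2 hxy) (hcl _ _ hx.2 hz.2 hxz) (hcl _ _ hy.2 hz.2 hyz)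
  have hsplit := card_filter_add_card_filter_not (s := S) (fun x => x.1 ≤ 41)
  have bound : ∀ T : Finset (Fin 55), (∀ x ∈ S, ¬ x.1 ≤ 41 → x ∈ T) →
      S.card ≤ 2 + T.card := by
    intro T hT
    have : (S.filter (fun x => ¬ x.1 ≤ 41)).card ≤ T.card := by
      apply card_le_card
      intro x hx
      rw [mem_filter] at hx
      exact hT x hx.1 hx.2
    omega
  have bound2 : ∀ T : Finset (Fin 55), (∀ x ∈ S, x ∈ T) → S.card ≤ T.card :=
    fun T hT => card_le_card hT
  by_cases h50 : (50 : Fin 55) ∈ S
  · by_cases h44 : (44 : Fin 55) ∈ S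
    · have h45 : (45 : Fin 55) ∉ S := fun h45 =>
        notri H _ hS.isAcyclic (mem_coe.2 h44) (mem_coe.2 h45) (mem_coe.2 h50)
          (by decide) (by decide) (by decide)
      rcases side H _ hS.connected 45 (by simpa using h45) (fun x => x.1 ≤ 44 ∨ 50 ≤ x.1)
        (by decide +kernel) with h | h
      · have := bound (univ.filter (fun x : Fin 55 => 42 ≤ x.1 ∧ (x.1 ≤ 44 ∨ 50 ≤ x.1)))
          (fun x hx hx' => by
            have := h x (mem_coe.2 hx)
            simp only [mem_filter, mem_univ, true_and]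
            omega)
        have e : (univ.filter (fun x : Fin 55 => 42 ≤ x.1 ∧ (x.1 ≤ 44 ∨ 50 ≤ x.1))).card = 8 := by
          decide +kernel
        omega
      · exact absurd (by decide) (h 50 (mem_coe.2 h50))
    · rcases side H _ hS.connected 44 (by simpa using h44) (fun x => 45 ≤ x.1)
        (by decide +kernel) with h | h
      · have := bound2 (univ.filter (fun x : Fin 55 => 45 ≤ x.1))
          (fun x hx => by
            have := h x (mem_coe.2 hx)
            simp only [mem_filter, mem_univ, true_and]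
            omega)
        have e : (univ.filter (fun x : Fin 55 => 45 ≤ x.1)).card = 10 := by
          decide +kernel
        omega
      · exact absurd (by decide) (h 50 (mem_coe.2 h50))
  · rcases side H _ hS.connected 50 (by simpa using h50) (fun x => x.1 ≤ 49)
        (by decide +kernel) with h | h
    · have := bound (univ.filter (fun x : Fin 55 => 42 ≤ x.1 ∧ x.1 ≤ 49))
          (fun x hx hx' => by
            have := h x (mem_coe.2 hx)
            simp only [mem_filter, mem_univ, true_and]
            omega)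
      have e : (univ.filter (fun x : Fin 55 => 42 ≤ x.1 ∧ x.1 ≤ 49)).card = 8 := by
        decide +kernel
      omega
    · have := bound2 (univ.filter (fun x : Fin 55 => 50 ≤ x.1))
          (fun x hx => by
            have := h x (mem_coe.2 hx)
            simp only [mem_filter, mem_univ, true_and]
            omega)
      have e : (univ.filter (fun x : Fin 55 => 50 ≤ x.1)).card = 5 := by
        decide +kernel
      omega

theorem result : ∃ (n : ℕ) (G : SimpleGraph (Fin n)), G.Connected ∧
    (treeNum G : ℤ) < ⌈avgEcc G + (maxLocalIndep G : ℝ) / 3⌉ := by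
  refine ⟨55, H, H_conn, ?_⟩
  have h1 : treeNum H ≤ 10 := by
    apply csSup_le'
    rintro m ⟨S, rfl, hS⟩
    exact tree_le S hS
  have h2 : (459 : ℝ) ≤ ∑ v, (ecc H v : ℝ) := by exact_mod_cast sum_ge
  have h3 : (5 : ℝ) ≤ maxLocalIndep H := by exact_mod_cast L_ge
  have h4 : (treeNum H : ℝ) ≤ 10 := by exact_mod_cast h1
  rw [Int.lt_ceil, avgEcc, Fintype.card_fin]
  push_cast
  have : (459 : ℝ) / 55 ≤ (∑ v, (ecc H v : ℝ)) / 55 := by gcongr
  linarith

end Pool.Agent.Results.MP_e3442a_co.TreeBoundFalse
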